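import Pool.Agent.H550R2.LP.SatUp
import Pool.Agent.H550R2.LP.RedDefs
import Mathlib.Combinatorics.SimpleGraph.Clique

set_option autoImplicit false

/-! A symmetric reduction of `p-log-SAT` to the clique problem. -/

namespace Pool.Agent.V11015.SA

open Finset Pool.Agent.H550R2.Lin Pool.Agent.H550R2.Lift
open Pool.Agent.H30R2.NS (Clause neg Sat Satisfies)

/-- The variables: `κ` groups of `b`. -/
abbrev Vars (κ b : ℕ) : Type := Fin κ × Fin b

/-- The vertices: a `d`-tuple of groups and an assignment for each of them. -/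
abbrev Vert (κ b d : ℕ) : Type := (Fin d → Fin κ) × (Fin d × Fin b → ZMod 2)

/-- The action of the negations on the vertices. -/
def actV {κ b : ℕ} (d : ℕ) (y : Vars κ b → ZMod 2) : Equiv.Perm (Vert κ b d) :=
  Equiv.prodShear (Equiv.refl _) fun j => Equiv.addRight fun p => y (j p.1, p.2)

/-- The action on the pairs of vertices. -/
def actP {κ b : ℕ} (d : ℕ) : Multiplicative (Vars κ b → ZMod 2) →*
    Equiv.Perm (Vert κ b d × Vert κ b d) where
  toFun y := (actV d y.toAdd).prodCongr (actV d y.toAdd)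
  map_one' := by
    ext ⟨⟨j, a⟩, ⟨j', a'⟩⟩ <;> simp [actV, Equiv.prodShear]
  map_mul' y z := by
    ext ⟨⟨j, a⟩, ⟨j', a'⟩⟩ <;> simp [actV, Equiv.prodShear] <;> ring

section red

variable {κ b d : ℕ}

/-- The assignments agree on common groups. -/
def Cons (u w : Vert κ b d) : Prop := ∀ l l', u.1 l = w.1 l' → ∀ x, u.2 (l, x) = w.2 (l', x)

theorem Cons.symm {u w : Vert κ b d} (h : Cons u w) : Cons w u :=
  fun l l' e x => (h l' l e.symm x).symm

/-- The clauses with variables in the groups of the vertex that its assignment does not satisfy. -/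
def Bad (u : Vert κ b d) : Set (Clause d (Vars κ b)) :=
  {c | ∀ l, (c l).1.1 = u.1 l ∧ u.2 (l, (c l).1.2) ≠ (c l).2}

/-- The pairs that are edges if there are no bad clauses. -/
def Good (o : Vert κ b d × Vert κ b d) : Prop :=
  o.1.1 ≠ o.2.1 ∧ Cons o.1 o.1 ∧ Cons o.2 o.2 ∧ Cons o.1 o.2

/-- the bad clauses of a pair -/
noncomputable def badF (o : Vert κ b d × Vert κ b d) : Finset (Clause d (Vars κ b)) :=
  open Classical in univ.filter fun c => c ∈ Bad o.1 ∨ c ∈ Bad o.2

/-- the sum of some coordinates -/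
noncomputable def sumF (B : Finset (Clause d (Vars κ b))) :
    ((Clause d (Vars κ b) → ℝ) × (Fin 0 → ℝ)) →ₗ[ℝ] ℝ :=
  (∑ c ∈ B, LinearMap.proj c) ∘ₗ LinearMap.fst ℝ _ _

/-- The program without variables which says that the sum of the coordinates vanishes. -/
noncomputable def noneLP (B : Finset (Clause d (Vars κ b))) :
    LP (Clause d (Vars κ b)) (Fin 0) where
  L := (LinearMap.ker (sumF B)).toAffineSubspace

theorem mem_noneLP (B : Finset (Clause d (Vars κ b))) (v : Clause d (Vars κ b) → ℝ)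
    (y : Fin 0 → ℝ) : (v, y) ∈ (noneLP B).L ↔ ∑ c ∈ B, v c = 0 := by
  show (v, y) ∈ (LinearMap.ker (sumF B)).toAffineSubspace ↔ _
  rw [Submodule.mem_toAffineSubspace, LinearMap.mem_ker]
  simp [sumF]

theorem acc_noneLP (B : Finset (Clause d (Vars κ b))) (Φ : Set (Clause d (Vars κ b))) :
    (noneLP B).Acc (ind Φ) ↔ ∀ c ∈ Φ, c ∉ B := by
  classical
  have h0 : (noneLP B).Acc (ind Φ) ↔ ∑ c ∈ B, ind Φ c = 0 := by
    constructor
    · rintro ⟨y, -, hy⟩
      exact (mem_noneLP B _ y).1 hy
    · intro h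
      exact ⟨fun i => i.elim0, fun i => i.elim0, (mem_noneLP B _ _).2 h⟩
  have h1 : ∀ c ∈ B, 0 ≤ ind Φ c := fun c _ => by
    unfold ind
    exact Set.indicator_nonneg (fun _ _ => zero_le_one) c
  rw [h0, Finset.sum_eq_zero_iff_of_nonneg h1]
  constructor
  · intro h c hc hB
    have h2 := h c hB
    unfold ind at h2
    rw [Set.indicator_of_mem hc] at h2
    exact one_ne_zero h2
  · intro h c hB
    have h2 : c ∉ Φ := fun hc => h c hc hB
    unfold ind
    rw [Set.indicator_of_notMem h2]

open Classical in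
/-- The algorithm for one pair of vertices. -/
noncomputable def algP (o : Vert κ b d × Vert κ b d) : LAlg (Clause d (Vars κ b)) :=
  if Good o then .test 0 (noneLP (badF o)) (.out false) (.out true) else .out false

theorem algP_size (o : Vert κ b d × Vert κ b d) : (algP o).size = 0 := by
  unfold algP
  split_ifs <;> rfl

theorem algP_run (o : Vert κ b d × Vert κ b d) (Φ : Set (Clause d (Vars κ b))) :
    (algP o).run (ind Φ) = true ↔ Good o ∧ ∀ c ∈ Φ, c ∉ Bad o.1 ∧ c ∉ Bad o.2 := by
  classical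
  have hb : (∀ c ∈ Φ, c ∉ badF o) ↔ ∀ c ∈ Φ, c ∉ Bad o.1 ∧ c ∉ Bad o.2 := by
    refine forall₂_congr fun c _ => ?_
    unfold badF
    rw [Finset.mem_filter]
    simp
  unfold algP
  by_cases h : Good o
  · rw [if_pos h]
    show (if (noneLP (badF o)).Acc (ind Φ) then true else false) = true ↔ _
    rw [← hb, ← acc_noneLP]
    by_cases h2 : (noneLP (badF o)).Acc (ind Φ)
    · simp [h2, h]
    · simp [h2]
  · rw [if_neg h]
    simp [LAlg.run, h]

theorem fix_bad {u : Vert κ b d} {y : Vars κ b → ZMod 2} (hy : actV d y u = u)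
    {c : Clause d (Vars κ b)} (hc : c ∈ Bad u) : (neg y).symm c = c := by
  have h1 : ∀ l x, y (u.1 l, x) = 0 := by
    intro l x
    have h2 := congrArg (fun z : Vert κ b d => z.2 (l, x)) hy
    have h3 : u.2 (l, x) + y (u.1 l, x) = u.2 (l, x) := h2
    exact left_eq_add.1 h3.symm
  funext l
  have h4 : y (c l).1 = 0 := by
    have h5 := h1 l (c l).1.2
    rw [← (hc l).1] at h5
    exact h5
  show ((c l).1, (c l).2 + y (c l).1) = c l
  rw [h4, add_zero]

theorem algP_sym (o : Vert κ b d × Vert κ b d) (y : Vars κ b → ZMod 2)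
    (hy : actP d (Multiplicative.ofAdd y) o = o) : (algP o).Sym (neg y) := by
  classical
  unfold algP
  by_cases h : Good o
  · rw [if_pos h]
    have h1 : actV d y o.1 = o.1 := congrArg Prod.fst hy
    have h2 : actV d y o.2 = o.2 := congrArg Prod.snd hy
    refine ⟨⟨1, fun v z => ?_⟩, trivial, trivial⟩
    rw [mem_noneLP, mem_noneLP]
    have h3 : ∑ c ∈ badF o, v ((neg y).symm c) = ∑ c ∈ badF o, v c := by
      refine Finset.sum_congr rfl fun c hc => ?_
      unfold badF at hc
      rw [Finset.mem_filter] at hc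
      rcases hc.2 with h4 | h4
      · rw [fix_bad h1 h4]
      · rw [fix_bad h2 h4]
    rw [h3]
  · rw [if_neg h]
    trivial

/-- The reduction. -/
noncomputable def redP (κ b d : ℕ) :
    Red (Clause d (Vars κ b)) (Vert κ b d × Vert κ b d) (Vars κ b) neg where
  ρ := actP d
  alg := algP
  sym o y h := algP_sym o y h

/-- The graph computed by a reduction. -/
def graph (F : Red (Clause d (Vars κ b)) (Vert κ b d × Vert κ b d) (Vars κ b) neg)
    (Φ : Set (Clause d (Vars κ b))) : SimpleGraph (Vert κ b d) :=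
  SimpleGraph.fromRel fun u w => F.out (ind Φ) (u, w) = true

theorem redP_adj (Φ : Set (Clause d (Vars κ b))) (u w : Vert κ b d) :
    (graph (redP κ b d) Φ).Adj u w ↔
      Good (u, w) ∧ ∀ c ∈ Φ, c ∉ Bad u ∧ c ∉ Bad w := by
  have h1 : ∀ u w : Vert κ b d, (redP κ b d).out (ind Φ) (u, w) = true ↔
      Good (u, w) ∧ ∀ c ∈ Φ, c ∉ Bad u ∧ c ∉ Bad w := fun u w => algP_run (u, w) Φ
  unfold graph
  rw [SimpleGraph.fromRel_adj, h1, h1]
  constructor
  · rintro ⟨-, h | h⟩
    · exact h
    · exact ⟨⟨h.1.1.symm, h.1.2.2.1, h.1.2.1, h.1.2.2.2.symm⟩, fun c hc => (h.2 c hc).symm⟩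
  · intro h
    exact ⟨fun e => h.1.1 (congrArg Prod.fst e), Or.inl h⟩

theorem neg_bad {u : Vert κ b d} (y : Vars κ b → ZMod 2) (c : Clause d (Vars κ b)) :
    neg y c ∈ Bad (actV d y u) ↔ c ∈ Bad u := by
  refine forall_congr' fun l => ?_
  show ((c l).1.1 = u.1 l ∧ u.2 (l, (c l).1.2) + y (u.1 l, (c l).1.2) ≠ (c l).2 + y (c l).1) ↔
    (c l).1.1 = u.1 l ∧ u.2 (l, (c l).1.2) ≠ (c l).2
  refine and_congr_right fun h => ?_
  have h1 : y (u.1 l, (c l).1.2) = y (c l).1 := by
    rw [← h]
  rw [h1, Ne, add_left_inj]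

theorem cons_act {u w : Vert κ b d} (y : Vars κ b → ZMod 2) :
    Cons (actV d y u) (actV d y w) ↔ Cons u w := by
  refine forall_congr' fun l => forall_congr' fun l' => forall_congr' fun h => ?_
  refine forall_congr' fun x => ?_
  show u.2 (l, x) + y (u.1 l, x) = w.2 (l', x) + y (w.1 l', x) ↔ _
  rw [show w.1 l' = u.1 l from h.symm, add_left_inj]

/-- The reduction commutes with the negations. -/
theorem redP_equiv (Φ : Set (Clause d (Vars κ b))) (y : Vars κ b → ZMod 2) (u w : Vert κ b d) :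
    (graph (redP κ b d) (neg y '' Φ)).Adj (actV d y u) (actV d y w) ↔
      (graph (redP κ b d) Φ).Adj u w := by
  rw [redP_adj, redP_adj]
  have h1 : Good (actV d y u, actV d y w) ↔ Good (u, w) := by
    show (u.1 ≠ w.1 ∧ Cons (actV d y u) (actV d y u) ∧ Cons (actV d y w) (actV d y w) ∧
      Cons (actV d y u) (actV d y w)) ↔ _
    rw [cons_act, cons_act, cons_act]
    exact Iff.rfl
  rw [h1]
  refine and_congr_right fun _ => ?_
  constructor
  · intro h c hc
    have h2 := h (neg y c) ⟨c, hc, rfl⟩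
    rw [neg_bad, neg_bad] at h2
    exact h2
  · rintro h _ ⟨c, hc, rfl⟩
    rw [neg_bad, neg_bad]
    exact h c hc

/-- The reduction is correct. -/
theorem redP_correct (hκ : 2 ≤ κ) (hd : 1 ≤ d) (Φ : Set (Clause d (Vars κ b))) :
    Sat Φ ↔ ∃ S, (graph (redP κ b d) Φ).IsNClique (κ ^ d) S := by
  classical
  have hJ : Fintype.card (Fin d → Fin κ) = κ ^ d := by simp
  constructor
  · rintro ⟨x, hx⟩
    let s : (Fin d → Fin κ) → Vert κ b d := fun j => (j, fun p => x (j p.1, p.2))
    have hs : Function.Injective s := fun j j' h => congrArg Prod.fst h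
    have hcons : ∀ j j', Cons (s j) (s j') := by
      intro j j' l l' h i
      show x (j l, i) = x (j' l', i)
      rw [show j l = j' l' from h]
    have hbad : ∀ j, ∀ c ∈ Φ, c ∉ Bad (s j) := by
      intro j c hc hb
      obtain ⟨l, hl⟩ := hx c hc
      obtain ⟨h1, h2⟩ := hb l
      apply h2
      show x (j l, (c l).1.2) = (c l).2
      rw [← show (c l).1.1 = j l from h1]
      exact hl
    refine ⟨univ.image s, ?_⟩
    rw [SimpleGraph.isNClique_iff]
    constructor
    · rw [SimpleGraph.isClique_iff]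
      intro u hu w hw huw
      rw [Finset.coe_image, Finset.coe_univ, Set.image_univ] at hu hw
      obtain ⟨j, rfl⟩ := hu
      obtain ⟨j', rfl⟩ := hw
      rw [redP_adj]
      exact ⟨⟨fun e => huw (congrArg s e), hcons j j, hcons j' j', hcons j j'⟩,
        fun c hc => ⟨hbad j c hc, hbad j' c hc⟩⟩
    · rw [Finset.card_image_of_injective _ hs, Finset.card_univ, hJ]
  · rintro ⟨S, hS⟩
    rw [SimpleGraph.isNClique_iff, SimpleGraph.isClique_iff] at hS
    obtain ⟨hcl, hcard⟩ := hS
    have hadj : ∀ u ∈ S, ∀ w ∈ S, u ≠ w → Good (u, w) ∧ ∀ c ∈ Φ, c ∉ Bad u ∧ c ∉ Bad w := by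
      intro u hu w hw huw
      rw [← redP_adj]
      exact hcl hu hw huw
    have hinj : Set.InjOn Prod.fst (S : Set (Vert κ b d)) := by
      intro u hu w hw h
      by_contra hne
      exact (hadj u hu w hw hne).1.1 h
    have himg : S.image Prod.fst = univ := by
      rw [← Finset.card_eq_iff_eq_univ, Finset.card_image_of_injOn hinj, hcard, hJ]
    have hex : ∀ j : Fin d → Fin κ, ∃ u ∈ S, u.1 = j := by
      intro j
      have h1 : j ∈ S.image Prod.fst := by
        rw [himg]
        exact Finset.mem_univ j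
      rw [Finset.mem_image] at h1
      exact h1
    choose s hsS hs1 using hex
    -- every vertex of the clique has a neighbour in it
    have hnb : ∀ j : Fin d → Fin κ, Cons (s j) (s j) ∧ ∀ c ∈ Φ, c ∉ Bad (s j) := by
      intro j
      have h2 : 2 ≤ Fintype.card (Fin d → Fin κ) := by
        rw [hJ]
        calc 2 ≤ κ := hκ
          _ = κ ^ 1 := (pow_one κ).symm
          _ ≤ κ ^ d := Nat.pow_le_pow_right (by omega) hd
      have : Nontrivial (Fin d → Fin κ) := Fintype.one_lt_card_iff_nontrivial.1 h2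
      obtain ⟨j', hj'⟩ := exists_ne j
      have hne : s j ≠ s j' := by
        intro h
        apply hj'
        rw [← hs1 j, ← hs1 j', h]
      have h3 := hadj _ (hsS j) _ (hsS j') hne
      exact ⟨h3.1.2.1, fun c hc => (h3.2 c hc).1⟩
    have hcons : ∀ j j', Cons (s j) (s j') := by
      intro j j'
      by_cases h : s j = s j'
      · rw [← h]
        exact (hnb j).1
      · exact (hadj _ (hsS j) _ (hsS j') h).1.2.2.2
    have l0 : Fin d := ⟨0, hd⟩
    refine ⟨fun p => (s fun _ => p.1).2 (l0, p.2), fun c hc => ?_⟩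
    by_contra hns
    apply (hnb fun l => (c l).1.1).2 c hc
    intro l
    rw [hs1]
    refine ⟨rfl, fun h => hns ⟨l, ?_⟩⟩
    rw [← h]
    show (s fun _ => (c l).1.1).2 (l0, (c l).1.2) = _
    apply hcons
    rw [hs1, hs1]

end red

end Pool.Agent.V11015.SA
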