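import Pool.Agent.H550R2.LP.Asym

set_option autoImplicit false

/-! Lower bounds for `p-log-SAT` in the model of randomized adaptive algorithms with linear programs
that are symmetric under a group of negations of the variables. -/

namespace Pool.Agent.V11015.SA

open Finset Filter Pool.Agent.H550R2.Lin Pool.Agent.H550R2.Lift
open Pool.Agent.H30R2.NS (Clause neg Sat Small)

/-- No algorithm with `m ^ c` variables decides `d`-CNFs with `m = 2 ^ b` clauses if it is symmetric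
under `m ^ ρ` negations and `c < (1 - o(1)) ρ`. -/
theorem low_main : ∃ C : ℝ, ∀ d : ℕ, 3 ≤ d → ∀ ρ : ℕ, 1 ≤ ρ → ∀ c : ℝ, 0 ≤ c →
    c < (1 - C * (Real.log d ^ 2 / d)) * ρ → ∀ F : ℝ, ∃ B : ℕ, ∀ b : ℕ, B ≤ b →
    ∀ (X : Type) (Γ : AddSubgroup (X → ZMod 2)), Nat.card Γ = 2 ^ (ρ * b) →
    ∀ R : RLAlg (Clause d X), (∀ a ∈ Γ, R.Sym (neg a)) → R.size ≤ F * ((2 : ℝ) ^ b) ^ c →
    ¬ R.DecidesOn (Small d X (2 ^ b)) := by
  obtain ⟨C, hC⟩ := seth_lp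
  refine ⟨C, fun d hd ρ hρ c hc hcρ F => ?_⟩
  set α : ℝ := 1 - C * (Real.log d ^ 2 / d) with hα
  set K1 : ℕ := 2 ^ (d - 1) * (ρ + 1) with hK1
  set K2 : ℕ := ⌈|F|⌉₊ + 1 with hK2
  obtain ⟨n1, hn1⟩ := poly_lt 1 one_pos K1
  obtain ⟨n2, hn2⟩ := poly_lt (α * ρ - c) (by linarith) K2
  refine ⟨max d (max n1 n2), fun b hb X Γ hΓ R hR hsize hdec => ?_⟩
  have hbd : d ≤ b := (le_max_left _ _).trans hb
  have hb1 : n1 ≤ b := ((le_max_left _ _).trans (le_max_right _ _)).trans hb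
  have hb2 : n2 ≤ b := ((le_max_right _ _).trans (le_max_right _ _)).trans hb
  have h1 := hn1 b hb1
  have h2 := hn2 b hb2
  have hdr : d ≤ ρ * b := hbd.trans (Nat.le_mul_of_pos_left b (by omega))
  have hK1pos : 1 ≤ K1 := by
    rw [hK1]
    exact Nat.one_le_iff_ne_zero.2 (by positivity)
  have hM : 2 ^ (d - 1) * (ρ * b + 1) ≤ 2 ^ b := by
    have e1 : ((2 ^ (d - 1) * (ρ * b + 1) : ℕ) : ℝ) ≤ ((2 ^ b : ℕ) : ℝ) := by
      have e2 : (1 : ℝ) * b = b := one_mul _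
      rw [e2, Real.rpow_natCast] at h1
      have e3 : ((b : ℝ) + 1) ≤ ((b : ℝ) + 1) ^ K1 := by
        have e4 : (1 : ℝ) ≤ (b : ℝ) + 1 := by
          have : (0 : ℝ) ≤ b := Nat.cast_nonneg b
          linarith
        calc (b : ℝ) + 1 = ((b : ℝ) + 1) ^ 1 := (pow_one _).symm
          _ ≤ ((b : ℝ) + 1) ^ K1 := pow_le_pow_right₀ e4 hK1pos
      have e5 : ((2 ^ (d - 1) * (ρ * b + 1) : ℕ) : ℝ) ≤ (K1 : ℝ) * ((b : ℝ) + 1) := by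
        rw [hK1]
        push_cast
        have e6 : (0 : ℝ) ≤ b := Nat.cast_nonneg b
        have e7 : (0 : ℝ) ≤ ρ := Nat.cast_nonneg ρ
        have e8 : (0 : ℝ) < 2 ^ (d - 1) := by positivity
        rw [mul_assoc]
        apply mul_le_mul_of_nonneg_left _ e8.le
        nlinarith
      have e9 : (0 : ℝ) ≤ K1 := Nat.cast_nonneg K1
      push_cast at e5 ⊢
      nlinarith [mul_le_mul_of_nonneg_left e3 e9]
    exact_mod_cast e1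
  have hdec' : R.DecidesOn (Small d X (2 ^ (d - 1) * (ρ * b + 1))) :=
    fun Φ hΦ => hdec Φ ⟨hΦ.1, hΦ.2.trans hM⟩
  have h3 := hC d hd (ρ * b) hdr X Γ hΓ R hR hdec'
  rw [← hα] at h3
  have hz : (1 : ℝ) ≤ ((2 : ℝ) ^ b) ^ c :=
    Real.one_le_rpow (one_le_pow₀ (by norm_num)) hc
  have hz' : ((2 : ℝ) ^ b) ^ c = (2 : ℝ) ^ (c * b) := by
    rw [← Real.rpow_natCast, ← Real.rpow_mul (by norm_num), mul_comm]
  have hsplit : (2 : ℝ) ^ (α * ((ρ * b : ℕ) : ℝ)) =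
      (2 : ℝ) ^ ((α * ρ - c) * b) * ((2 : ℝ) ^ b) ^ c := by
    rw [hz', ← Real.rpow_add (by norm_num)]
    congr 1
    push_cast
    ring
  rw [hsplit] at h3
  have hF : F ≤ (⌈|F|⌉₊ : ℝ) := (le_abs_self F).trans (Nat.le_ceil _)
  have hK2b : (K2 : ℝ) ≤ (K2 : ℝ) * ((b : ℝ) + 1) ^ K2 := by
    have e4 : (1 : ℝ) ≤ ((b : ℝ) + 1) ^ K2 := one_le_pow₀ (by
      have : (0 : ℝ) ≤ b := Nat.cast_nonneg b
      linarith)
    have e9 : (0 : ℝ) ≤ K2 := Nat.cast_nonneg K2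
    nlinarith
  have hK2' : (K2 : ℝ) = (⌈|F|⌉₊ : ℝ) + 1 := by
    rw [hK2]
    push_cast
    ring
  have h4 : (⌈|F|⌉₊ : ℝ) + 1 < (2 : ℝ) ^ ((α * ρ - c) * b) := by linarith
  have h5 : ((⌈|F|⌉₊ : ℝ) + 1) * ((2 : ℝ) ^ b) ^ c <
      (2 : ℝ) ^ ((α * ρ - c) * b) * ((2 : ℝ) ^ b) ^ c :=
    mul_lt_mul_of_pos_right h4 (by linarith)
  have h6 : F * ((2 : ℝ) ^ b) ^ c ≤ (⌈|F|⌉₊ : ℝ) * ((2 : ℝ) ^ b) ^ c :=
    mul_le_mul_of_nonneg_right hF (by linarith)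
  nlinarith

/-- `M[1]` is not contained in `FPT` in the model. -/
theorem not_fpt : ∃ d : ℕ, 3 ≤ d ∧ ∀ (ρ : ℕ → ℕ), (∀ s, ∃ κ, s ≤ ρ κ) → ∀ (f : ℕ → ℕ) (c : ℕ),
    ∃ κ B : ℕ, ∀ b, B ≤ b → ∀ Γ : AddSubgroup (Fin κ × Fin b → ZMod 2),
    Nat.card Γ = 2 ^ (ρ κ * b) → ∀ R : RLAlg (Clause d (Fin κ × Fin b)),
    (∀ a ∈ Γ, R.Sym (neg a)) → R.size ≤ f κ * ((2 : ℝ) ^ b) ^ c →
    ¬ R.DecidesOn (Small d (Fin κ × Fin b) (2 ^ b)) := by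
  obtain ⟨C, hC⟩ := low_main
  obtain ⟨d, hd, hd'⟩ := exists_kk C (1 / 2) (by norm_num)
  refine ⟨d, hd, fun ρ hρ f c => ?_⟩
  obtain ⟨κ, hκ⟩ := hρ (2 * c + 1)
  have h1 : (c : ℝ) < (1 - C * (Real.log d ^ 2 / d)) * ρ κ := by
    have e1 : ((2 * c + 1 : ℕ) : ℝ) ≤ ρ κ := by exact_mod_cast hκ
    push_cast at e1
    have e2 : (0 : ℝ) ≤ ρ κ := Nat.cast_nonneg _
    nlinarith
  obtain ⟨B, hB⟩ := hC d hd (ρ κ) (by omega) c (Nat.cast_nonneg c) h1 (f κ)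
  refine ⟨κ, B, fun b hb Γ hΓ R hR hs => hB b hb _ Γ hΓ R hR ?_⟩
  rw [Real.rpow_natCast]
  exact hs

end Pool.Agent.V11015.SA
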